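import Pool.Agent.H41.CUBE.TStmts

/-!
# Cube project (MP_47888e_al), board `cubt`, module CI
-/

set_option autoImplicit false

open Finset MvPolynomial Pool.CM

namespace Pool.CUBE

theorem CI_proof (h : CTLStmt) : CIStmt := by
  intro X E _ _ A hA n D hD P hP hred N _ _ b l co hco
  obtain ⟨Cx, c, hEv⟩ := h X E A hA n D hD P hP hred N b l co hco ∅
  refine hEv.mono fun i hi => ?_
  obtain ⟨hcx, -, hP1, -, hb1, -, hctl, -⟩ := hi
  have hO : ∀ m x, x ∈ Cx i m → x ∈ A.O i := hcx.O
  -- the coordinates of the monomials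
  have hmon : ∀ a : Fin (n + 1) →₀ ℕ, (∀ j, co (monomial a 1) j ∈ A.O i) ∧
      (D ∣ a.degree + (n + 1) → ∃ h : Fin (n + 1) → Poly n E, (∀ k, WtD D (h k)) ∧
      (∀ k, CInt A i (h k)) ∧
      (monomial a 1 : Poly n E) = ∑ j, co (monomial a 1) j • b j + ∑ k, Dop P k (h k)) := by
    intro a
    by_cases hd : D ∣ a.degree + (n + 1)
    · obtain ⟨m, hm⟩ := hd
      have hw : Wt (D * m) (monomial a 1 : Poly n E) := by
        classical
        intro a' ha'
        rw [coeff_monomial] at ha'
        split_ifs at ha' with h0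
        · rw [← h0, hm]
        · exact absurd rfl ha'
      have hc : CoefIn (Cx i 0) (monomial a 1 : Poly n E) := by
        classical
        intro a'
        rw [coeff_monomial]
        split_ifs with h0
        · exact hcx.one
        · exact (Cx i 0).zero_mem
      obtain ⟨h1, h', h2, h3, h4⟩ := hctl m 0 _ hw hc
      exact ⟨fun j => hO _ _ (h1 j), fun _ => ⟨h', h2, fun k a' => hO _ _ (h3 k a'), h4⟩⟩
    · rw [hco.nd a hd]
      exact ⟨fun j => (A.O i).zero_mem, fun h0 => absurd h0 hd⟩
  have hlin : ∀ (g : Poly n E) j, co g j = ∑ a ∈ g.support, coeff a g * co (monomial a 1) j := by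
    intro g j
    conv_lhs => rw [g.as_sum]
    rw [map_sum, Finset.sum_apply]
    refine Finset.sum_congr rfl fun a _ => ?_
    have : (monomial a (coeff a g) : Poly n E) = coeff a g • monomial a 1 := by
      rw [smul_monomial, smul_eq_mul, mul_one]
    rw [this, map_smul, Pi.smul_apply, smul_eq_mul]
  have hlinF : ∀ (g : Poly n E) j, coF (A.phi i) co g j =
      ∑ a ∈ g.support, coeff a g * A.phi i (co (monomial a 1) j) := by
    intro g j
    conv_lhs => rw [g.as_sum]
    rw [map_sum, Finset.sum_apply]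
    refine Finset.sum_congr rfl fun a _ => ?_
    unfold coF
    rw [linMon_monomial, Pi.smul_apply, smul_eq_mul]
  have hphi : ∀ a j, A.phi i (co (monomial a 1) j) ∈ A.O i :=
    fun a j => hA.phi_O i _ ((hmon a).1 j)
  have hdv : ∀ (M : ℕ) (g : Poly n E) (w : (Fin (n + 1) →₀ ℕ) → E), CDv A i M g →
      (∀ a, w a ∈ A.O i) → A.Dv i M (∑ a ∈ g.support, coeff a g * w a) := by
    intro M g w hg hw
    choose y hy1 hy2 using hg
    refine ⟨∑ a ∈ g.support, y a * w a,
      (A.O i).sum_mem fun a _ => (A.O i).mul_mem (hy1 a) (hw a), ?_⟩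
    rw [Finset.mul_sum]
    refine Finset.sum_congr rfl fun a _ => ?_
    rw [hy2 a, mul_assoc]
  refine ⟨fun a => hO _ _ (hP1 a), fun j a => hO _ _ (hb1 j a), ?_, ?_, ?_⟩
  · intro g hg
    refine ⟨fun j => ?_, fun j => ?_⟩
    · rw [hlin]
      exact (A.O i).sum_mem fun a _ => (A.O i).mul_mem (hg a) ((hmon a).1 j)
    · rw [hlinF]
      exact (A.O i).sum_mem fun a _ => (A.O i).mul_mem (hg a) (hphi a j)
  · intro M g hg
    refine ⟨fun j => ?_, fun j => ?_⟩
    · rw [hlin]
      exact hdv M g _ hg fun a => (hmon a).1 j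
    · rw [hlinF]
      exact hdv M g _ hg fun a => hphi a j
  · intro g hg hw
    have hex : ∀ a : Fin (n + 1) →₀ ℕ, ∃ h : Fin (n + 1) → Poly n E, (∀ k, WtD D (h k)) ∧
        (∀ k, CInt A i (h k)) ∧ (D ∣ a.degree + (n + 1) →
        (monomial a 1 : Poly n E) = ∑ j, co (monomial a 1) j • b j + ∑ k, Dop P k (h k)) := by
      intro a
      by_cases hd : D ∣ a.degree + (n + 1)
      · obtain ⟨h1, h2, h3, h4⟩ := (hmon a).2 hd
        exact ⟨h1, h2, h3, fun _ => h4⟩
      · refine ⟨fun _ => 0, fun k a' ha' => ?_, fun k a' => ?_, fun h0 => absurd h0 hd⟩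
        · rw [coeff_zero] at ha'
          exact absurd rfl ha'
        · rw [coeff_zero]
          exact (A.O i).zero_mem
    choose H hH1 hH2 hH3 using hex
    refine ⟨fun k => ∑ a ∈ g.support, coeff a g • H a k, fun k a' ha' => ?_, fun k a' => ?_, ?_⟩
    · rw [coeff_sum] at ha'
      obtain ⟨a, _, ha⟩ := Finset.exists_ne_zero_of_sum_ne_zero ha'
      refine hH1 a k a' fun h0 => ha ?_
      rw [coeff_smul, h0, smul_zero]
    · rw [coeff_sum]
      refine (A.O i).sum_mem fun a _ => ?_
      rw [coeff_smul, smul_eq_mul]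
      exact (A.O i).mul_mem (hg a) (hH2 a k a')
    · have e1 : g = ∑ a ∈ g.support, coeff a g • (monomial a 1 : Poly n E) := by
        conv_lhs => rw [g.as_sum]
        refine Finset.sum_congr rfl fun a _ => ?_
        rw [smul_monomial, smul_eq_mul, mul_one]
      have e2 : ∀ a ∈ g.support, coeff a g • (monomial a 1 : Poly n E) =
          ∑ j, (coeff a g * co (monomial a 1) j) • b j + ∑ k, Dop P k (coeff a g • H a k) := by
        intro a ha
        conv_lhs => rw [hH3 a (hw a (mem_support_iff.1 ha))]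
        rw [smul_add, Finset.smul_sum, Finset.smul_sum]
        congr 1
        · exact Finset.sum_congr rfl fun j _ => smul_smul _ _ _
        · exact Finset.sum_congr rfl fun k _ => (map_smul _ _ _).symm
      conv_lhs => rw [e1, Finset.sum_congr rfl e2, Finset.sum_add_distrib]
      congr 1
      · rw [Finset.sum_comm]
        refine Finset.sum_congr rfl fun j _ => ?_
        rw [hlin, Finset.sum_smul]
      · rw [Finset.sum_comm]
        refine Finset.sum_congr rfl fun k _ => ?_
        rw [map_sum]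

end Pool.CUBE
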