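import Pool.Agent.H41.CUBE.TStmts

/-!
# Cube project (MP_47888e_al), board `cubt`, module EEF
-/

set_option autoImplicit false

open Finset MvPolynomial Pool.CM

namespace Pool.CUBE

namespace EEFaux

section
variable {n : ℕ} {A : Type} [CommRing A]

theorem expand_mon (p : ℕ) (m : Fin (n + 1) →₀ ℕ) (r : A) :
    expand p (monomial m r : Poly n A) = monomial (p • m) r := by
  rw [expand_monomial, monomial_eq, Finsupp.prod_fintype _ _ (by simp)]

theorem nat_mul_mon (p : ℕ) (m : Fin (n + 1) →₀ ℕ) (r : A) :
    ((p : ℕ) : Poly n A) * monomial m r = monomial m ((p : A) * r) := by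
  have h : ((p : ℕ) : Poly n A) = C (p : A) := (map_natCast (C : A →+* Poly n A) p).symm
  rw [h, C_mul_monomial]

theorem coeff_nat_mul (p : ℕ) (a : Fin (n + 1) →₀ ℕ) (g : Poly n A) :
    coeff a (((p : ℕ) : Poly n A) * g) = (p : A) * coeff a g := by
  have h : ((p : ℕ) : Poly n A) = C (p : A) := (map_natCast (C : A →+* Poly n A) p).symm
  rw [h, coeff_C_mul]

theorem ez_expand (p : ℕ) (k : Fin (n + 1)) (g : Poly n A) :
    ez k (expand p g) = ((p : ℕ) : Poly n A) * expand p (ez k g) := by
  induction g using MvPolynomial.induction_on' with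
  | add g1 g2 h1 h2 => rw [map_add, map_add, h1, h2, map_add, map_add]; ring
  | monomial a s =>
    rw [expand_mon, ez_monomial, ez_monomial, expand_mon, nat_mul_mon]
    congr 1
    rw [Finsupp.smul_apply, smul_eq_mul, Nat.cast_mul]
    ring

theorem cD_expand (δ : Derivation ℤ A A) (p : ℕ) (g : Poly n A) :
    cD δ (expand p g) = expand p (cD δ g) := by
  induction g using MvPolynomial.induction_on' with
  | add g1 g2 h1 h2 => rw [map_add, map_add, h1, h2, map_add, map_add]
  | monomial a s => rw [expand_mon, cD_monomial, cD_monomial, expand_mon]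

theorem cD_map (δ : Derivation ℤ A A) (p : ℕ) (φ : A →+* A)
    (h : ∀ x, δ (φ x) = (p : A) * φ (δ x)) (g : Poly n A) :
    cD δ (map φ g) = (p : A) • map φ (cD δ g) := by
  induction g using MvPolynomial.induction_on' with
  | add g1 g2 h1 h2 => rw [map_add, map_add, h1, h2, map_add, map_add, smul_add]
  | monomial a s => rw [map_monomial, cD_monomial, cD_monomial, map_monomial, h, smul_monomial,
      smul_eq_mul]

theorem coefIn_expand (G : AddSubgroup A) (p : ℕ) (g : Poly n A) (h : CoefIn G g) :
    CoefIn G (expand p g) := by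
  classical
  intro a
  rw [g.as_sum, map_sum, coeff_sum]
  refine G.sum_mem fun b _ => ?_
  rw [expand_mon, coeff_monomial]
  split_ifs
  · exact h b
  · exact G.zero_mem

end

section
variable {X : Idx} {E : Type} [Field E] {n : ℕ}

/-- the ring of integral polynomials -/
def intS (A : PF X E) (i : X.I) (n : ℕ) : Subring (Poly n E) where
  carrier := {g | CInt A i g}
  mul_mem' := by
    classical
    intro u v hu hv m
    rw [MvPolynomial.coeff_mul]
    exact (A.O i).sum_mem fun x _ => (A.O i).mul_mem (hu _) (hv _)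
  one_mem' := by
    classical
    intro m
    rw [MvPolynomial.coeff_one]
    split
    · exact (A.O i).one_mem
    · exact (A.O i).zero_mem
  add_mem' := by
    intro u v hu hv m
    rw [MvPolynomial.coeff_add]
    exact (A.O i).add_mem (hu _) (hv _)
  zero_mem' := by
    intro m
    rw [MvPolynomial.coeff_zero]
    exact (A.O i).zero_mem
  neg_mem' := by
    intro u hu m
    rw [MvPolynomial.coeff_neg]
    exact (A.O i).neg_mem (hu _)

theorem mem_intS {A : PF X E} {i : X.I} {g : Poly n E} : g ∈ intS A i n ↔ CInt A i g := Iff.rfl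

theorem mon_mem {A : PF X E} {i : X.I} (a : Fin (n + 1) →₀ ℕ) (x : E) (hx : x ∈ A.O i) :
    (monomial a x : Poly n E) ∈ intS A i n := by
  classical
  intro m
  rw [coeff_monomial]
  split_ifs
  · exact hx
  · exact (A.O i).zero_mem

theorem frob_cong {A : PF X E} (hA : A.Ax) (i : X.I) (s : Finset (Fin (n + 1) →₀ ℕ))
    (f : (Fin (n + 1) →₀ ℕ) → E) (hf : ∀ a, f a ∈ A.O i) :
    ∃ Q ∈ intS A i n, (∑ a ∈ s, monomial a (f a) : Poly n E) ^ X.p i =
      expand (X.p i) (map (A.phi i) (∑ a ∈ s, monomial a (f a))) +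
        ((X.p i : ℕ) : Poly n E) * Q := by
  classical
  induction s using Finset.induction_on with
  | empty =>
    refine ⟨0, (intS A i n).zero_mem, ?_⟩
    rw [Finset.sum_empty, zero_pow (X.hp i).ne_zero, map_zero, map_zero, mul_zero, add_zero]
  | insert a s ha ih =>
    obtain ⟨Q, hQ, e⟩ := ih
    rw [Finset.sum_insert ha]
    have hx : (monomial a (f a) : Poly n E) ∈ intS A i n := mon_mem a _ (hf a)
    have hy : (∑ a ∈ s, monomial a (f a) : Poly n E) ∈ intS A i n :=
      (intS A i n).sum_mem fun b _ => mon_mem b _ (hf b)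
    obtain ⟨r, hr⟩ := exists_add_pow_prime_eq (X.hp i)
      (⟨_, hx⟩ : intS A i n) (⟨_, hy⟩ : intS A i n)
    have hr' := congrArg (fun z : intS A i n => (z : Poly n E)) hr
    push_cast at hr'
    obtain ⟨y, hy1, hy2⟩ := hA.phi_frob i (f a) (hf a)
    have e1 : (monomial a (f a) : Poly n E) ^ X.p i =
        expand (X.p i) (map (A.phi i) (monomial a (f a))) -
          ((X.p i : ℕ) : Poly n E) * monomial (X.p i • a) y := by
      rw [monomial_pow, map_monomial, expand_mon, nat_mul_mon, ← map_sub]
      congr 1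
      rw [pow_one] at hy2
      rw [← hy2]
      ring
    refine ⟨Q - monomial (X.p i • a) y +
        monomial a (f a) * (∑ a ∈ s, monomial a (f a)) * (r : Poly n E),
      (intS A i n).add_mem ((intS A i n).sub_mem hQ (mon_mem _ _ hy1))
        ((intS A i n).mul_mem ((intS A i n).mul_mem hx hy) r.2), ?_⟩
    rw [hr', e, e1, map_add, map_add]
    ring

theorem frob_cong' {A : PF X E} (hA : A.Ax) (i : X.I) (P : Poly n E) (hP : CInt A i P) :
    ∃ Q ∈ intS A i n, P ^ X.p i = expand (X.p i) (map (A.phi i) P) +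
        ((X.p i : ℕ) : Poly n E) * Q := by
  have := frob_cong hA i P.support (fun a => coeff a P) hP
  rwa [← P.as_sum] at this

end

end EEFaux

open EEFaux

theorem EEF_proof : EEFStmt := by
  classical
  intro X E _ _ A hA i n D P hP hPi
  have hp0 : ((X.p i : ℕ) : E) ≠ 0 := Nat.cast_ne_zero.2 (X.hp i).ne_zero
  have hpP : ((X.p i : ℕ) : Poly n E) ≠ 0 := by
    intro h0
    have := congrArg (coeff 0) h0
    have h : ((X.p i : ℕ) : Poly n E) = C (X.p i : E) :=
      (map_natCast (C : E →+* Poly n E) (X.p i)).symm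
    rw [h, coeff_zero_C, coeff_zero] at this
    exact hp0 this
  have hdef : P ^ X.p i = expand (X.p i) (map (A.phi i) P) +
      ((X.p i : ℕ) : Poly n E) * EE (X.p i) (A.phi i) P := by
    have h : ((X.p i : ℕ) : Poly n E) = C (X.p i : E) :=
      (map_natCast (C : E →+* Poly n E) (X.p i)).symm
    unfold EE
    rw [h, ← mul_assoc, ← C_mul, mul_inv_cancel₀ hp0, C_1, one_mul]
    ring
  have hint : CInt A i (EE (X.p i) (A.phi i) P) := by
    obtain ⟨Q, hQ, e⟩ := frob_cong' hA i P hPi
    rw [hdef] at e
    rw [mul_left_cancel₀ hpP (add_left_cancel e)]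
    exact hQ
  refine ⟨?_, hint, hdef, ?_, ?_, ?_⟩
  · unfold EE
    have h1 : (P ^ X.p i).IsHomogeneous (X.p i * D) := by
      have := hP.pow (X.p i)
      rwa [mul_comm] at this
    have h2 : (expand (X.p i) (map (A.phi i) P)).IsHomogeneous (X.p i * D) :=
      expand_isHomogeneous (hP.map _) _
    exact (h1.sub h2).C_mul _
  · intro k
    have h1 := congrArg (ez k) hdef
    rw [Derivation.leibniz_pow, map_add, ez_expand, Derivation.leibniz,
      Derivation.map_natCast, smul_zero, add_zero, smul_eq_mul, smul_eq_mul, nsmul_eq_mul,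
      ← mul_add] at h1
    exact mul_left_cancel₀ hpP h1
  · intro j
    have h2 : cD (A.D j) (map (A.phi i) P) =
        ((X.p i : ℕ) : E) • map (A.phi i) (cD (A.D j) P) :=
      cD_map _ _ _ (fun x => hA.D_phi i j x) P
    refine ⟨?_, h2⟩
    have h1 := congrArg (cD (A.D j)) hdef
    have h : ((X.p i : ℕ) : Poly n E) = C (X.p i : E) :=
      (map_natCast (C : E →+* Poly n E) (X.p i)).symm
    rw [Derivation.leibniz_pow, map_add, cD_expand, h2, map_smul, Derivation.leibniz,
      Derivation.map_natCast, smul_zero, add_zero, smul_eq_mul, smul_eq_mul, nsmul_eq_mul,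
      ← C_mul', ← h, ← mul_add] at h1
    exact mul_left_cancel₀ hpP h1
  · intro Cx c hcx h1 h2 a
    have hpow : ∀ k, CoefIn (Cx k) (P ^ k) := by
      intro k
      induction k with
      | zero =>
        intro b
        rw [pow_zero, MvPolynomial.coeff_one]
        split
        · exact hcx.one
        · exact (Cx 0).zero_mem
      | succ k ih =>
        intro b
        rw [pow_succ, MvPolynomial.coeff_mul]
        exact (Cx (k + 1)).sum_mem fun x _ => hcx.mul _ _ _ _ (ih _) (h1 _)
    refine hcx.sat _ _ (hint a) ?_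
    rw [← coeff_nat_mul]
    have e1 : ((X.p i : ℕ) : Poly n E) * EE (X.p i) (A.phi i) P =
        P ^ X.p i - expand (X.p i) (map (A.phi i) P) := by rw [hdef]; ring
    rw [e1, coeff_sub]
    exact (Cx (X.p i)).sub_mem (hpow _ a) (coefIn_expand _ _ _ h2 a)

end Pool.CUBE
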