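import Pool.Agent.H41.CUBE.TStmts
import Pool.Agent.H98.CUBE.Coef

/-!
# Cube project (MP_47888e_al), board `cubt`, module GAM
-/

set_option autoImplicit false

open Finset MvPolynomial Pool.CM

namespace Pool.CUBE

namespace GAMaux

theorem fac_split (p : ℕ) (hp : p.Prime) (j : ℕ) : ∃ v u : ℕ, ¬ p ∣ u ∧
    j.factorial = p ^ v * u ∧ (p - 1) * v ≤ j := by
  have := Fact.mk hp
  refine ⟨padicValNat p j.factorial, j.factorial / p ^ padicValNat p j.factorial, ?_, ?_, ?_⟩
  · have := Nat.not_dvd_ordCompl hp (Nat.factorial_ne_zero j)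
    rwa [Nat.factorization_def _ hp] at this
  · exact (Nat.mul_div_cancel' pow_padicValNat_dvd).symm
  · rw [sub_one_mul_padicValNat_factorial]
    exact Nat.sub_le _ _

theorem uN_not_dvd (p N : ℕ) (hp : p.Prime) : ¬ p ∣ uN p N := by
  unfold uN
  refine Finset.prod_induction _ (fun k => ¬ p ∣ k) (fun a b ha hb hab => ?_)
    (fun h => hp.one_lt.ne' (Nat.dvd_one.1 h)) ?_
  · rcases (hp.dvd_mul).1 hab with h | h
    · exact ha h
    · exact hb h
  · intro i hi
    exact (Finset.mem_filter.1 hi).2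

section
variable {X : Idx} {E : Type} [Field E] [CharZero E] {A : PF X E}

omit [CharZero E] in
theorem inv_O (hA : A.Ax) (i : X.I) (k : ℕ) (hk : ¬ X.p i ∣ k) : ((k : E))⁻¹ ∈ A.O i :=
  hA.pol_O i 0 _ (hA.pol_inv i k hk)

theorem gam_eq (p j v u : ℕ) (hp : p.Prime) (h : j.factorial = p ^ v * u) (hv : v ≤ j) :
    gam E p j = (p : E) ^ (j - v) * ((u : E))⁻¹ := by
  have hp0 : (p : E) ≠ 0 := Nat.cast_ne_zero.2 hp.ne_zero
  unfold gam
  rw [h, Nat.cast_mul, Nat.cast_pow, div_eq_mul_inv, mul_inv, ← mul_assoc]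
  congr 1
  rw [pow_sub₀ _ hp0 hv]

theorem le_of_mul {a v j : ℕ} (ha : 1 ≤ a) (h : a * v ≤ j) : v ≤ j :=
  le_trans (Nat.le_mul_of_pos_left v ha) h

theorem cc_eq (p n m j : ℕ) (hp : p.Prime) (hm : 1 ≤ m) (hmn : m ≤ n + 1) :
    cc E p n m j = ((((j.factorial * uN p (m + j) : ℕ)) : E))⁻¹ * (p : E) ^ (n + 1 - m) := by
  have hp0 : (p : E) ≠ 0 := Nat.cast_ne_zero.2 hp.ne_zero
  have h1 := factorial_uN p (m + j) hp.pos
  have hpos : 0 < p * (m + j) := Nat.mul_pos hp.pos (by omega)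
  have h3 : (p * (m + j)).factorial = p * (m + j) * (p * (m + j) - 1).factorial := by
    rw [Nat.mul_factorial_pred (by omega)]
  have h4 : (m + j).factorial = (m + j) * (m + j - 1).factorial := by
    rw [Nat.mul_factorial_pred (by omega)]
  have h5 : p ^ (m + j) = p * p ^ (m + j - 1) := by
    rw [← pow_succ', Nat.sub_add_cancel (by omega)]
  have h6 : (p * (m + j) - 1).factorial =
      p ^ (m + j - 1) * (m + j - 1).factorial * uN p (m + j) := by
    rw [h3, h4, h5] at h1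
    refine Nat.eq_of_mul_eq_mul_left hpos ?_
    rw [h1]
    ring
  have hf1 : ((m + j - 1).factorial : E) ≠ 0 := Nat.cast_ne_zero.2 (Nat.factorial_ne_zero _)
  have hf2 : (j.factorial : E) ≠ 0 := Nat.cast_ne_zero.2 (Nat.factorial_ne_zero _)
  have hf3 : (uN p (m + j) : E) ≠ 0 := by
    refine Nat.cast_ne_zero.2 fun h0 => uN_not_dvd p (m + j) hp ?_
    rw [h0]
    exact dvd_zero p
  have e1 : (p : E) ^ (n + j) = (p : E) ^ (m + j - 1) * (p : E) ^ (n + 1 - m) := by
    rw [← pow_add]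
    congr 1
    omega
  unfold cc
  rw [h6, e1]
  push_cast
  rw [div_eq_iff]
  · field_simp
  · exact mul_ne_zero hf2 (mul_ne_zero (mul_ne_zero (pow_ne_zero _ hp0) hf1) hf3)

end

end GAMaux

open GAMaux

theorem GAM_proof : GAMStmt := by
  intro X E _ _ A hA n M hM
  refine (Idx.Ev.large (X := X) (2 * M)).mono fun i hi => ?_
  have hp := X.hp i
  have hnat : ∀ (k : ℕ), (k : E) ∈ A.O i := fun k => natCast_mem _ k
  have hfac : ∀ j < M, ¬ X.p i ∣ j.factorial := fun j hj h => by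
    have := (hp.dvd_factorial).1 h
    omega
  have hcu : ∀ m, ∀ j < M, ¬ X.p i ∣ j.factorial * uN (X.p i) (m + j) := fun m j hj h => by
    rcases (hp.dvd_mul).1 h with h | h
    · exact hfac j hj h
    · exact uN_not_dvd _ _ hp h
  have hCnat : ∀ (Cx : ℕ → AddSubgroup E) (c : ℕ), IsCx A i Cx c → ∀ k : ℕ, (k : E) ∈ Cx 0 := by
    intro Cx c h k
    have := (Cx 0).nsmul_mem h.one k
    rwa [nsmul_one] at this
  refine ⟨?_, ?_, ?_, ?_, ?_⟩
  · intro j
    obtain ⟨v, u, hu, hj, hv⟩ := fac_split _ hp j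
    rw [gam_eq _ j v u hp hj (le_of_mul (by omega) hv)]
    exact (A.O i).mul_mem (Subring.pow_mem _ (hnat _) _) (inv_O hA i u hu)
  · intro j hMj
    obtain ⟨v, u, hu, hj, hv⟩ := fac_split _ hp j
    have hvj := le_of_mul (by omega) hv
    have key : M ≤ j - v := by
      rcases Nat.eq_zero_or_pos v with h0 | h0
      · omega
      · have h1 : 2 * M * v ≤ (X.p i - 1) * v := Nat.mul_le_mul_right v (by omega)
        have h2 : M + v ≤ 2 * M * v := by nlinarith
        omega
    rw [gam_eq _ j v u hp hj hvj]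
    refine ⟨(X.p i : E) ^ (j - v - M) * ((u : E))⁻¹,
      (A.O i).mul_mem (Subring.pow_mem _ (hnat _) _) (inv_O hA i u hu), ?_⟩
    rw [← mul_assoc, ← pow_add]
    congr 2
    omega
  · intro Cx c h j hj
    unfold gam
    rw [div_eq_mul_inv, mul_comm]
    refine h.inv _ (hfac j hj) 0 _ ?_
    rw [← Nat.cast_pow]
    exact hCnat Cx c h _
  · intro Cx c h m hm hmn j hj
    rw [cc_eq _ n m j hp hm hmn]
    refine h.inv _ (hcu m j hj) 0 _ ?_
    rw [← Nat.cast_pow]
    exact hCnat Cx c h _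
  · intro m hm hmn j hj
    have hO := inv_O hA i _ (hcu m j hj)
    refine ⟨?_, ?_, ?_⟩
    · rw [cc_eq _ n m j hp hm hmn]
      exact (A.O i).mul_mem hO (Subring.pow_mem _ (hnat _) _)
    · intro hmn'
      rw [cc_eq _ n m j hp hm hmn]
      refine ⟨((((j.factorial * uN (X.p i) (m + j) : ℕ)) : E))⁻¹ * (X.p i : E) ^ (n - m),
        (A.O i).mul_mem hO (Subring.pow_mem _ (hnat _) _), ?_⟩
      have e1 : n + 1 - m = n - m + 1 := by omega
      rw [e1, pow_succ, pow_one]
      ring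
    · rw [cc_eq _ n m j hp hm hmn, K_pN _ _ hp.pos (by omega)]
      have hne : (((j.factorial * uN (X.p i) (m + j) : ℕ)) : E) ≠ 0 := by
        refine Nat.cast_ne_zero.2 fun h0 => hcu m j hj ?_
        rw [h0]
        exact dvd_zero _
      have e1 : (X.p i : E) ^ (n + 1 - m) * (X.p i : E) ^ (m + j - 1) =
          (X.p i : E) ^ n * (X.p i : E) ^ j := by
        rw [← pow_add, ← pow_add]
        congr 1
        omega
      unfold gam
      push_cast at hne ⊢
      have hf2 : (j.factorial : E) ≠ 0 := left_ne_zero_of_mul hne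
      have hf3 : (uN (X.p i) (m + j) : E) ≠ 0 := right_ne_zero_of_mul hne
      rw [mul_inv]
      calc ((j.factorial : E))⁻¹ * ((uN (X.p i) (m + j) : E))⁻¹ * (X.p i : E) ^ (n + 1 - m) *
            ((X.p i : E) ^ (m + j - 1) * (uN (X.p i) (m + j) : E))
          = ((j.factorial : E))⁻¹ * ((X.p i : E) ^ (n + 1 - m) * (X.p i : E) ^ (m + j - 1)) *
            (((uN (X.p i) (m + j) : E))⁻¹ * (uN (X.p i) (m + j) : E)) := by ring
        _ = _ := by
          rw [inv_mul_cancel₀ hf3, e1]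
          ring

end Pool.CUBE
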