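import Pool.Agent.H38.CUBE.JJStmts2
import Pool.Agent.H33.CUBE.J_RC

/-!
# MP_47888e_al, block CONT/JJ, part 2: module BPX (binomial polynomials of `p X + f`)
-/

set_option autoImplicit false

open Polynomial

namespace Pool.CUBE

open Pool.CM Pool.H93.Cube

namespace F_BPX

theorem affP_desc {E : Type} [Field E] (p : E) (f : ℤ) (j : ℕ) :
    affP p (f : E) (descPochhammer E j) =
      ∏ r ∈ Finset.range j, (Polynomial.C p * Polynomial.X + Polynomial.C (((f - r : ℤ)) : E)) := by
  induction j with
  | zero => simp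
  | succ j ih =>
    rw [descPochhammer_succ_right, map_mul, ih, Finset.prod_range_succ]
    congr 1
    have h1 : ((j : ℕ) : E[X]) = Polynomial.C ((j : ℕ) : E) := (map_natCast _ _).symm
    rw [h1, map_sub, J_RC.affP_X, J_RC.affP_C]
    push_cast
    rw [map_sub]
    ring

/-- number of multiples of `p` among `f - r`, `r < j` -/
theorem count_mult (p : ℕ) (hp : 0 < p) (f : ℤ) (j : ℕ) :
    j / p ≤ ((Finset.range j).filter fun r : ℕ => (p : ℤ) ∣ f - r).card ∧
      ((Finset.range j).filter fun r : ℕ => (p : ℤ) ∣ f - r).card ≤ j / p + 1 ∧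
      (j % p = 0 → ((Finset.range j).filter fun r : ℕ => (p : ℤ) ∣ f - r).card = j / p) := by
  have hp0 : (p : ℤ) ≠ 0 := by exact_mod_cast hp.ne'
  obtain ⟨v, hv⟩ : ∃ v : ℕ, f % (p : ℤ) = v :=
    ⟨(f % (p : ℤ)).toNat, (Int.toNat_of_nonneg (Int.emod_nonneg f hp0)).symm⟩
  have h1 : ((Finset.range j).filter fun r : ℕ => (p : ℤ) ∣ f - r) =
      (Finset.range j).filter fun r : ℕ => r ≡ v [MOD p] := by
    refine Finset.filter_congr fun r _ => ?_
    rw [Nat.modEq_iff_dvd, ← hv]
    have h2 : f % (p : ℤ) - r = (f - r) - (p : ℤ) * (f / p) := by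
      rw [Int.emod_def]; ring
    rw [h2]
    exact ⟨fun h => dvd_sub h (dvd_mul_right _ _), fun h => (dvd_sub_left (dvd_mul_right _ _)).1 h⟩
  have h3 : ((Finset.range j).filter fun r : ℕ => (p : ℤ) ∣ f - r).card =
      j / p + if v % p < j % p then 1 else 0 := by
    rw [h1, ← Nat.count_eq_card_filter_range, Nat.count_modEq_card _ hp]
  rw [h3]
  refine ⟨Nat.le_add_right _ _, ?_, ?_⟩
  · split_ifs <;> omega
  · intro h
    rw [h, if_neg (Nat.not_lt_zero _), add_zero]

/-- Legendre's formula for `j < p ^ 2` -/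
theorem factorial_split (p : ℕ) (hp : p.Prime) (j : ℕ) (hj : j < p * p) :
    ∃ u : ℕ, ¬ p ∣ u ∧ j.factorial = p ^ (j / p) * u := by
  have : Fact p.Prime := ⟨hp⟩
  obtain ⟨e, u, hu, he⟩ := Nat.exists_eq_pow_mul_and_not_dvd (Nat.factorial_ne_zero j) p hp.ne_one
  refine ⟨u, hu, ?_⟩
  have hu0 : u ≠ 0 := fun h => hu (h ▸ dvd_zero p)
  have h1 : padicValNat p j.factorial = e := by
    rw [he, padicValNat.mul (pow_ne_zero _ hp.ne_zero) hu0, padicValNat.prime_pow,
      padicValNat.eq_zero_of_not_dvd hu, add_zero]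
  have h2 : padicValNat p j.factorial = j / p := by
    rw [padicValNat_factorial (b := 2)]
    · simp
    · refine Nat.log_lt_of_lt_pow' (by norm_num) ?_
      rw [pow_two]
      exact hj
  rw [he, ← h2, h1]

end F_BPX

open F_BPX in
theorem bpx_thm (hpac : PACStmt) : BPXStmt := by
  intro X E _ _ A hA i C M hC f j h hj
  classical
  obtain ⟨-, pmul, pmono, ppoly, pC, -, psum, -, -, pR⟩ := hpac X E A hA i M
  set p : ℕ := X.p i with hp
  have hpp : p.Prime := X.hp i
  set S := (Finset.range j).filter fun r : ℕ => (p : ℤ) ∣ f - r with hS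
  set T := (Finset.range j).filter fun r : ℕ => ¬ (p : ℤ) ∣ f - r with hT
  obtain ⟨hm1, hm2, hm3⟩ := count_mult p hpp.pos f j
  rw [← hS] at hm1 hm2 hm3
  have hjp : j < p * p := lt_of_le_of_lt hj (Nat.mul_lt_mul_of_pos_right hC hpp.pos)
  have hjC : j / p ≤ C := by
    refine Nat.le_of_lt_succ ((Nat.div_lt_iff_lt_mul hpp.pos).2 ?_)
    have := hpp.pos
    nlinarith
  have hmC : S.card ≤ C + 1 := hm2.trans (by omega)
  obtain ⟨u, hu, hfac⟩ := factorial_split p hpp j hjp
  have hpE : (p : E) ≠ 0 := h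
  have huE : (u : E) ≠ 0 := Nat.cast_ne_zero.2 fun h0 => hu (h0 ▸ dvd_zero p)
  have hui : ((u : E))⁻¹ ∈ A.O i := hA.pol_O i 0 _ (hA.pol_inv i u hu)
  -- the polynomials
  set H1 : E[X] := ∏ r ∈ S, (Polynomial.X + Polynomial.C ((((f - r) / p : ℤ)) : E)) with hH1
  set H2 : E[X] := ∏ r ∈ T, (Polynomial.X + Polynomial.C (((f - r : ℤ)) : E)) with hH2
  have hintp : ∀ (s : Finset ℕ) (b : ℕ → ℤ),
      A.Int i (∏ r ∈ s, (Polynomial.X + Polynomial.C ((b r : ℤ) : E))) := by
    intro s b
    induction s using Finset.induction_on with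
    | empty => rw [Finset.prod_empty]; exact PF.Int.one A
    | insert a s ha ih =>
      rw [Finset.prod_insert ha]
      refine PF.Int.mul A ?_ ih
      intro n
      rw [Polynomial.coeff_add, Polynomial.coeff_X, Polynomial.coeff_C]
      refine (A.O i).add_mem ?_ ?_
      · split_ifs
        · exact (A.O i).one_mem
        · exact (A.O i).zero_mem
      · split_ifs
        · exact intCast_mem _ _
        · exact (A.O i).zero_mem
  have hH1i : A.Int i H1 := hintp S _
  have hH2i : A.Int i H2 := hintp T _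
  have hH1d : H1.natDegree ≤ C + 1 := by
    refine le_trans (Polynomial.natDegree_prod_le _ _) ?_
    refine le_trans (Finset.sum_le_card_nsmul _ _ 1 fun r _ => ?_) ?_
    · exact (Polynomial.natDegree_X_add_C _).le
    · simpa using hmC
  -- the product
  have hprod : affP (p : E) (f : E) (descPochhammer E j) =
      Polynomial.C ((p : E) ^ S.card) * H1 * H2.comp (Polynomial.C (p : E) * Polynomial.X) := by
    rw [affP_desc, ← Finset.prod_filter_mul_prod_filter_not (Finset.range j)
      (fun r : ℕ => (p : ℤ) ∣ f - r), ← hS, ← hT]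
    congr 1
    · rw [hH1, map_pow, ← Finset.prod_const, ← Finset.prod_mul_distrib]
      refine Finset.prod_congr rfl fun r hr => ?_
      have hd : (p : ℤ) ∣ f - r := (Finset.mem_filter.1 hr).2
      have he : ((f - r : ℤ) : E) = (p : E) * (((f - r) / p : ℤ) : E) := by
        conv_lhs => rw [← Int.mul_ediv_cancel' hd]
        push_cast
        ring
      rw [he, map_mul]
      ring
    · rw [hH2, Polynomial.prod_comp]
      refine Finset.prod_congr rfl fun r hr => ?_
      rw [Polynomial.add_comp, Polynomial.X_comp, Polynomial.C_comp]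
  have hbin : affR (p : E) (f : E) h (binR E j) =
      RatFunc.C ((p : E) ^ S.card * ((j.factorial : E))⁻¹) * algebraMap E[X] (RatFunc E) H1 *
        algebraMap E[X] (RatFunc E) (H2.comp (Polynomial.C (p : E) * Polynomial.X)) := by
    rw [binR, J_RC.affR_algebraMap, map_mul, J_RC.affP_C, hprod, ← RatFunc.algebraMap_C,
      ← map_mul, ← map_mul]
    congr 1
    rw [Polynomial.C_mul]
    ring
  have hcoef : (p : E) ^ S.card * ((j.factorial : E))⁻¹ ∈ A.O i := by
    have e1 : (p : E) ^ S.card * ((j.factorial : E))⁻¹ =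
        (p : E) ^ (S.card - j / p) * ((u : E))⁻¹ := by
      have e2 : (p : E) ^ S.card = (p : E) ^ (S.card - j / p) * (p : E) ^ (j / p) := by
        rw [← pow_add, Nat.sub_add_cancel hm1]
      rw [e2, hfac]
      push_cast
      have := pow_ne_zero (j / p) hpE
      field_simp
    rw [e1]
    exact (A.O i).mul_mem ((A.O i).pow_mem (natCast_mem _ _) _) hui
  -- integral polynomials in `p X`
  have hpX : PA A i M M (algebraMap E[X] (RatFunc E)
      (H2.comp (Polynomial.C (p : E) * Polynomial.X))) := by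
    have e1 : algebraMap E[X] (RatFunc E) (H2.comp (Polynomial.C (p : E) * Polynomial.X)) =
        ∑ k ∈ Finset.range (H2.natDegree + 1), algebraMap E[X] (RatFunc E)
          (Polynomial.C (H2.coeff k * (p : E) ^ k) * Polynomial.X ^ k) := by
      rw [← map_sum]
      congr 1
      conv_lhs => rw [H2.as_sum_range_C_mul_X_pow, Polynomial.sum_comp]
      refine Finset.sum_congr rfl fun k _ => ?_
      rw [Polynomial.mul_comp, Polynomial.C_comp, Polynomial.X_pow_comp, mul_pow, ← mul_assoc,
        ← Polynomial.C_pow, ← Polynomial.C_mul]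
    have hint1 : ∀ (c : E) (k : ℕ), c ∈ A.O i → A.Int i (Polynomial.C c * Polynomial.X ^ k) := by
      intro c k hc n
      rw [Polynomial.coeff_C_mul_X_pow]
      split_ifs
      · exact hc
      · exact (A.O i).zero_mem
    have key : ∀ k : ℕ, PA A i M M (algebraMap E[X] (RatFunc E)
          (Polynomial.C (H2.coeff k * (p : E) ^ k) * Polynomial.X ^ k)) := by
      intro k
      rcases le_or_gt k M with hk | hk
      · refine ppoly _ _ (hint1 _ _ ((A.O i).mul_mem (hH2i k)
          ((A.O i).pow_mem (natCast_mem _ _) _))) ?_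
        exact (Polynomial.natDegree_C_mul_X_pow_le _ _).trans hk
      · refine ⟨0, PF.Int.zero A, by simp, algebraMap E[X] (RatFunc E)
          (Polynomial.C (H2.coeff k * (p : E) ^ (k - M)) * Polynomial.X ^ k), ?_, ?_⟩
        · exact pR _ _ (ppoly _ _ (hint1 _ _ ((A.O i).mul_mem (hH2i k)
            ((A.O i).pow_mem (natCast_mem _ _) _))) le_rfl)
        · have e2 : ((p : RatFunc E)) ^ M = algebraMap E[X] (RatFunc E)
              (Polynomial.C ((p : E) ^ M)) := by
            rw [RatFunc.algebraMap_C, map_pow, map_natCast]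
          rw [map_zero, zero_add, e2, ← map_mul, ← mul_assoc, ← Polynomial.C_mul]
          congr 3
          have e3 : (p : E) ^ k = (p : E) ^ M * (p : E) ^ (k - M) := by
            rw [← pow_add]; congr 1; omega
          rw [e3]; ring
    rw [e1]
    generalize Finset.range (H2.natDegree + 1) = s
    exact psum M ℕ s _ fun k _ => key k
  rw [hbin]
  have q1 := pmul 0 (C + 1) _ _ (pC _ hcoef) (ppoly H1 (C + 1) hH1i hH1d)
  have q2 := pmul _ _ _ _ q1 hpX
  rw [zero_add] at q2
  exact q2

end Pool.CUBE
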