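import Pool.Agent.H38.CUBE.JJStmts2
import Pool.Agent.H33.CUBE.J_RC

/-!
# MP_47888e_al, block CONT/JJ, part 2: module INTP (interpolation)
-/

set_option autoImplicit false

open Polynomial

namespace Pool.CUBE

open Pool.CM Pool.H93.Cube

namespace F_INTP

variable {X : Idx} {E : Type} [Field E]

theorem dv_mul {A : PF X E} {i : X.I} {M : ℕ} {x y : E} (hx : x ∈ A.O i) (hy : A.Dv i M y) :
    A.Dv i M (x * y) := by
  obtain ⟨z, hz, rfl⟩ := hy
  exact ⟨x * z, (A.O i).mul_mem hx hz, by ring⟩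

theorem dv_sum {A : PF X E} {i : X.I} {M : ℕ} {α : Type*} (s : Finset α) (f : α → E)
    (h : ∀ a ∈ s, A.Dv i M (f a)) : A.Dv i M (∑ a ∈ s, f a) := by
  classical
  choose! y hy e using h
  refine ⟨∑ a ∈ s, y a, (A.O i).sum_mem fun a ha => hy a ha, ?_⟩
  rw [Finset.mul_sum]
  exact Finset.sum_congr rfl fun a ha => e a ha

theorem dv_sub {A : PF X E} {i : X.I} {M : ℕ} {x y : E} (hx : A.Dv i M x) (hy : A.Dv i M y) :
    A.Dv i M (x - y) := by
  obtain ⟨a, ha, rfl⟩ := hx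
  obtain ⟨b, hb, rfl⟩ := hy
  exact ⟨a - b, (A.O i).sub_mem ha hb, by ring⟩

theorem ev_mem {A : PF X E} (hA : A.Ax) (x : E) : X.Ev fun i => x ∈ A.O i := by
  by_cases hx : x = 0
  · exact Idx.Ev.of_forall fun i => by rw [hx]; exact (A.O i).zero_mem
  · exact (hA.pf2 x hx).mono fun i h => h.2.1

/-- fixed finite sets are integral almost everywhere -/
theorem ev_mem_fin {A : PF X E} (hA : A.Ax) {ι : Type*} (s : Finset ι) (f : ι → E) :
    X.Ev fun i => ∀ a ∈ s, f a ∈ A.O i :=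
  Idx.Ev.allFinset s fun a _ => ev_mem hA (f a)

theorem lexp_coeff_of_Rc [CharZero E] {N : ℤ} {r : RatFunc E} (h : ∀ j, 1 ≤ j → Rc j N r = 0) :
    ∀ k < 0, (lexp N r).coeff k = 0 := by
  intro k hk
  obtain ⟨j, rfl⟩ : ∃ j : ℕ, k = -(j : ℤ) := ⟨(-k).toNat, by omega⟩
  have h1 := h j (by omega)
  rw [Rc] at h1
  rcases mul_eq_zero.1 h1 with h2 | h2
  · exfalso
    rcases div_eq_zero_iff.1 h2 with h3 | h3
    · exact pow_ne_zero _ (neg_ne_zero.2 one_ne_zero) h3
    · exact Nat.cast_ne_zero.2 (Nat.factorial_ne_zero j) h3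
  · exact h2

theorem Rc_zero (N : ℤ) (r : RatFunc E) : Rc 0 N r = (lexp N r).coeff 0 := by
  rw [Rc]
  simp

theorem basis_int {A : PF X E} {i : X.I} (s : Finset ℤ)
    (h : ∀ x ∈ s, ∀ y ∈ s, ((x : E) - y)⁻¹ ∈ A.O i) (x : ℤ) (hx : x ∈ s) :
    A.Int i (Lagrange.basis s (fun N : ℤ => (N : E)) x) := by
  rw [Lagrange.basis]
  have hmul : ∀ t : Finset ℤ, (∀ y ∈ t, y ∈ s) →
      A.Int i (∏ y ∈ t, Lagrange.basisDivisor ((x : ℤ) : E) ((y : ℤ) : E)) := by
    intro t
    classical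
    induction t using Finset.induction_on with
    | empty =>
      intro _
      rw [Finset.prod_empty]
      exact PF.Int.one A
    | insert a t ha ih =>
      intro ht
      rw [Finset.prod_insert ha]
      refine PF.Int.mul A ?_ (ih fun y hy => ht y (Finset.mem_insert_of_mem hy))
      intro n
      rw [Lagrange.basisDivisor, Polynomial.coeff_C_mul]
      refine (A.O i).mul_mem (h x hx a (ht a (Finset.mem_insert_self _ _))) ?_
      rw [Polynomial.coeff_sub, Polynomial.coeff_X, Polynomial.coeff_C]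
      refine (A.O i).sub_mem ?_ ?_
      · split_ifs
        · exact (A.O i).one_mem
        · exact (A.O i).zero_mem
      · split_ifs
        · exact intCast_mem _ _
        · exact (A.O i).zero_mem
  exact hmul _ fun y hy => Finset.mem_of_mem_erase hy

end F_INTP

open F_INTP in
theorem intp_thm (hpac : PACStmt) : INTPStmt := by
  intro X E _ _ A hA Q hQ M d N0 C1
  set s : Finset ℤ := Finset.Icc N0 (N0 + d) with hs
  set u : ℤ → LaurentSeries E := fun N => (lexp N (algebraMap E[X] (RatFunc E) Q))⁻¹ with hu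
  have ev1 : X.Ev fun i => ∀ k ∈ Q.support, Q.coeff k ∈ A.O i := ev_mem_fin hA _ _
  have ev2 : X.Ev fun i => ∀ x ∈ s ×ˢ s, ((x.1 : E) - x.2)⁻¹ ∈ A.O i := ev_mem_fin hA _ _
  have ev3 : X.Ev fun i => ∀ x ∈ (Finset.Icc (-(C1 : ℤ)) C1).sigma
      (fun N => Finset.Icc (u N).order 0), (u x.1).coeff x.2 ∈ A.O i := ev_mem_fin hA _ _
  refine ((ev1.and ev2).and ev3).mono ?_
  rintro i ⟨⟨h1, h2⟩, h3⟩ r ⟨g, hg, hgd, r1, hr1, e⟩ hw N hN
  have hp0 : (X.p i : E) ≠ 0 := Nat.cast_ne_zero.2 (X.hp i).ne_zero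
  have hpM : (X.p i : E) ^ M ≠ 0 := pow_ne_zero _ hp0
  have hQi : ∀ N : ℤ, Q.eval (N : E) ∈ A.O i := by
    intro N
    rw [Polynomial.eval_eq_sum, Polynomial.sum_def]
    exact (A.O i).sum_mem fun k hk => (A.O i).mul_mem (h1 k hk) ((A.O i).pow_mem (intCast_mem _ _) _)
  have hpl : ∀ (N k : ℤ) (f : RatFunc E), (lexp N ((X.p i : RatFunc E) ^ M * f)).coeff k =
      (X.p i : E) ^ M * (lexp N f).coeff k := by
    intro N k f
    have h : ((X.p i : RatFunc E)) ^ M = RatFunc.C ((X.p i : E) ^ M) := by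
      rw [map_pow, map_natCast]
    rw [h, map_mul, J_RC.lexp_C, HahnSeries.C_mul_eq_smul, HahnSeries.coeff_smul, smul_eq_mul]
  -- the values of `g` on the window
  have hval : ∀ x ∈ s, A.Dv i M (g.eval ((x : ℤ) : E)) := by
    intro x hx
    rw [hs, Finset.mem_Icc] at hx
    obtain ⟨ha, hb⟩ := hw x hx.1 hx.2
    have hneg := lexp_coeff_of_Rc hb
    have e1 := congrArg (fun f => (lexp x f).coeff 0) e
    simp only [map_mul, map_add, HahnSeries.coeff_add] at e1
    rw [← map_mul (lexp x) ((X.p i : RatFunc E) ^ M) r1, hpl, J_RC.lexp_algebraMap,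
      J_RC.lexp_algebraMap,
      coeff_mul_IccR (a := 0) (b := 0) (fun k hk => exP_coeff_neg _ _ hk) hneg] at e1
    have hI : Finset.Icc (0 : ℤ) (0 - 0) = {0} := by simp
    rw [hI, Finset.sum_singleton] at e1
    have h0 : ∀ q : E[X], (exP E (affP 1 (x : E) q)).coeff (0 : ℤ) = q.eval (x : E) := by
      intro q
      have := rc_thm E
      have h5 := this.2.2.2.2.1 x q
      rw [Rc_zero, J_RC.lexp_algebraMap] at h5
      exact h5
    rw [h0, h0, sub_zero, ← Rc_zero] at e1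
    have e2 : g.eval ((x : ℤ) : E) = Q.eval ((x : ℤ) : E) * Rc 0 x r -
        (X.p i : E) ^ M * (lexp x r1).coeff 0 := by
      rw [e1]; ring
    rw [e2]
    exact dv_sub (dv_mul (hQi x) ha) ⟨_, (hr1 x 0).1, rfl⟩
  -- interpolation
  have hinj : Set.InjOn (fun N : ℤ => (N : E)) (s : Set ℤ) :=
    fun a _ b _ h => Int.cast_injective h
  have hcard : s.card = d + 1 := by
    rw [hs, Int.card_Icc]
    omega
  have hdeg : g.degree < (s.card : WithBot ℕ) := by
    rw [hcard]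
    refine lt_of_le_of_lt Polynomial.degree_le_natDegree ?_
    exact_mod_cast Nat.lt_succ_of_le hgd
  have hint := Lagrange.eq_interpolate hinj hdeg
  have hco : ∀ n, A.Dv i M (g.coeff n) := by
    intro n
    rw [hint, Lagrange.interpolate_apply, Polynomial.finsetSum_coeff]
    refine dv_sum _ _ fun x hx => ?_
    rw [Polynomial.coeff_C_mul, mul_comm]
    refine dv_mul (basis_int s (fun x hx y hy => ?_) x hx n) (hval x hx)
    exact h2 (x, y) (Finset.mem_product.2 ⟨hx, hy⟩)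
  -- divide by `p ^ M`
  set g1 : E[X] := Polynomial.C (((X.p i : E) ^ M)⁻¹) * g with hg1
  have hg1i : A.Int i g1 := by
    intro n
    obtain ⟨y, hy, ey⟩ := hco n
    rw [hg1, Polynomial.coeff_C_mul, ey, ← mul_assoc, inv_mul_cancel₀ hpM, one_mul]
    exact hy
  obtain ⟨-, -, -, pac4, -, -, -, -, pac9, pac10⟩ := hpac X E A hA i M
  have hr2 : algebraMap E[X] (RatFunc E) g1 + r1 ∈ Rint A i :=
    (pac9 _ _ (pac10 _ _ (pac4 g1 _ hg1i le_rfl)) hr1).1
  have hgr : algebraMap E[X] (RatFunc E) g = (X.p i : RatFunc E) ^ M *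
      algebraMap E[X] (RatFunc E) g1 := by
    have h : ((X.p i : RatFunc E)) ^ M = algebraMap E[X] (RatFunc E)
        (Polynomial.C ((X.p i : E) ^ M)) := by
      rw [RatFunc.algebraMap_C, map_pow, map_natCast]
    rw [h, hg1, ← map_mul, ← mul_assoc, ← Polynomial.C_mul, mul_inv_cancel₀ hpM, map_one, one_mul]
  have e3 : algebraMap E[X] (RatFunc E) Q * r = (X.p i : RatFunc E) ^ M *
      (algebraMap E[X] (RatFunc E) g1 + r1) := by
    rw [e, hgr]; ring
  have hQ0 : lexp N (algebraMap E[X] (RatFunc E) Q) ≠ 0 := by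
    intro h
    have h' := (lexp (E := E) N).injective (h.trans (map_zero _).symm)
    exact hQ ((IsFractionRing.injective E[X] (RatFunc E)) (h'.trans (map_zero _).symm))
  have e4 : lexp N r = u N * lexp N ((X.p i : RatFunc E) ^ M *
      (algebraMap E[X] (RatFunc E) g1 + r1)) := by
    rw [← e3, map_mul, hu, ← mul_assoc, inv_mul_cancel₀ hQ0, one_mul]
  rw [Rc_zero, e4, coeff_mul_IccR (a := (u N).order) (b := 0)
    (fun k hk => HahnSeries.coeff_eq_zero_of_lt_order hk)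
    (fun k hk => by rw [hpl, (hr2 N k).2 hk, mul_zero])]
  refine dv_sum _ _ fun k hk => ?_
  rw [hpl]
  refine dv_mul ?_ ⟨_, (hr2 N (0 - k)).1, rfl⟩
  rw [sub_zero] at hk
  exact h3 ⟨N, k⟩ (Finset.mem_sigma.2 ⟨Finset.mem_Icc.2 (abs_le.1 hN), hk⟩)

end Pool.CUBE
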