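import Pool.Agent.H38.CUBE.JJStmts2

/-!
# MP_47888e_al, block CONT/JJ, part 2: module IOJ (the functional `aN` of `X₁` and `Ainf`)
-/

set_option autoImplicit false

open Polynomial

namespace Pool.CUBE

open Pool.CM Pool.H93.Cube

namespace F_IOJ

variable {n : ℕ} {E : Type} [Field E]

/-- constants of `E[τ][λ]` -/
noncomputable def CC (E : Type) [Field E] : E →+* B2 E :=
  (Polynomial.C (R := E[X])).comp (Polynomial.C (R := E))

/-- `E[z][τ] → E[τ][λ][z]` -/
noncomputable def Psi (n : ℕ) (E : Type) [Field E] : Polynomial (Poly n E) →+* Poly n (B2 E) :=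
  Polynomial.eval₂RingHom (MvPolynomial.map (CC E))
    (MvPolynomial.C (Polynomial.C (Polynomial.X : E[X]) : B2 E))

theorem Psi_monomial (k : ℕ) (h : Poly n E) : Psi n E (Polynomial.monomial k h) =
    MvPolynomial.C (Polynomial.C (Polynomial.X ^ k : E[X]) : B2 E) * MvPolynomial.map (CC E) h := by
  rw [Psi, Polynomial.coe_eval₂RingHom, Polynomial.eval₂_monomial, map_pow, map_pow, mul_comm]

theorem Psi_C (h : Poly n E) : Psi n E (Polynomial.C h) = MvPolynomial.map (CC E) h := by
  rw [Psi, Polynomial.coe_eval₂RingHom, Polynomial.eval₂_C]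

variable [CharZero E]

theorem algQ (q : ℚ) : algebraMap ℚ (B2 E) q = CC E (algebraMap ℚ E q) :=
  RingHom.congr_fun (Subsingleton.elim (algebraMap ℚ (B2 E)) ((CC E).comp (algebraMap ℚ E))) q

theorem IoQ_map (h : Poly n E) : IoQ (B := B2 E) (MvPolynomial.map (CC E) h) = CC E (Io h) := by
  induction h using MvPolynomial.induction_on' with
  | monomial a c =>
    rw [MvPolynomial.map_monomial, IoQ, Io, linMon_monomial, linMon_monomial, algQ,
      smul_eq_mul, smul_eq_mul, ← map_mul]
    congr 2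
    rw [map_div₀, map_natCast, map_natCast]
    push_cast
    rfl
  | add p q hp hq => rw [map_add, map_add, map_add, map_add, hp, hq]

theorem IoQ_Psi (F : Polynomial (Poly n E)) (l t : ℕ) :
    ((IoQ (B := B2 E) (Psi n E F)).coeff l).coeff t = if l = 0 then Io (F.coeff t) else 0 := by
  induction F using Polynomial.induction_on' with
  | add p q hp hq =>
    rw [map_add, map_add, Polynomial.coeff_add, Polynomial.coeff_add, hp, hq]
    split_ifs
    · rw [Polynomial.coeff_add, map_add]
    · rw [add_zero]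
  | monomial k h =>
    rw [Psi_monomial, MvPolynomial.C_mul', map_smul, IoQ_map, smul_eq_mul]
    have e1 : (Polynomial.C (Polynomial.X ^ k : E[X]) : B2 E) * CC E (Io h) =
        Polynomial.C (Polynomial.X ^ k * Polynomial.C (Io h)) := by
      rw [map_mul]; rfl
    rw [e1, Polynomial.coeff_C]
    by_cases hl : l = 0
    · rw [if_pos hl, if_pos hl, mul_comm, Polynomial.coeff_C_mul_X_pow, Polynomial.coeff_monomial]
      by_cases ht : t = k
      · rw [if_pos ht, if_pos ht.symm]
      · rw [if_neg ht, if_neg (Ne.symm ht), map_zero]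
    · rw [if_neg hl, if_neg hl, Polynomial.coeff_zero]

theorem coeff_term (c : ℕ) (e : E) (y : B2 E) (hy : ∀ l t, l ≠ 0 → (y.coeff l).coeff t = 0)
    (l t : ℕ) : ((Polynomial.X ^ c * CC E e * y : B2 E).coeff l).coeff t =
      if l = c then e * (y.coeff 0).coeff t else 0 := by
  have h1 : (Polynomial.X ^ c * CC E e * y : B2 E) =
      Polynomial.C (Polynomial.C e) * (Polynomial.X ^ c * y) := by
    have : CC E e = Polynomial.C (Polynomial.C e) := rfl
    rw [this]; ring
  rw [h1, Polynomial.coeff_C_mul, Polynomial.coeff_C_mul, Polynomial.coeff_X_pow_mul']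
  by_cases hc : l = c
  · subst hc
    rw [if_pos le_rfl, if_pos rfl, Nat.sub_self]
  · rw [if_neg hc]
    by_cases hc' : c ≤ l
    · rw [if_pos hc', hy _ _ (by omega), mul_zero]
    · rw [if_neg hc', Polynomial.coeff_zero, mul_zero]

omit [CharZero E] in
theorem bin_gen {R : Type} [CommRing R] (Y La f g : R) (m : ℕ) : g * (Y - La * f) ^ m =
    ∑ c ∈ Finset.range (m + 1), (La ^ c * ((-1) ^ c * (m.choose c : R))) *
      (g * f ^ c * Y ^ (m - c)) := by
  rw [sub_eq_neg_add, add_pow, Finset.mul_sum]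
  refine Finset.sum_congr rfl fun c _ => ?_
  rw [neg_eq_neg_one_mul (La * f), mul_pow, mul_pow]
  ring

omit [CharZero E] in
theorem hom_gen {A R B : Type} [CommRing A] [CommRing R] [CommRing B] (φ : A →+* R)
    (ψ : B →+* A) (x : A) (c k : ℕ) :
    φ (x ^ c * ψ ((-1) ^ c * (k : B))) = φ x ^ c * ((-1) ^ c * (k : R)) := by
  simp

end F_IOJ

open F_IOJ in
theorem Corner.ioj_thm : Corner.IOJStmt := by
  intro n E _ _ K a N hD l t
  set L : ℕ := K.lv a with hL
  have hL' : (a.degree + (n + 1)) / K.D = L := rfl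
  have e0 : aN K.D K.X1 N (MvPolynomial.monomial a 1) =
      if L ≤ N + 1 then algebraMap ℚ (B2 E) ((N.factorial : ℚ) / ((N + 1 - L).factorial : ℚ)) *
        IoQ (MvPolynomial.monomial a 1 * K.X1 ^ (N + 1 - L)) else 0 := by
    rw [aN, linMon_monomial, one_smul, hL']
    by_cases h : L ≤ N + 1
    · rw [if_pos ⟨hD, h⟩, if_pos h]
    · rw [if_neg (fun h' => h h'.2), if_neg h]
  rw [e0]
  by_cases hLN : L ≤ N + 1
  swap
  · rw [if_neg hLN, Polynomial.coeff_zero, Polynomial.coeff_zero, Corner.Ainf, if_neg]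
    intro h
    exact hLN (by omega)
  rw [if_pos hLN]
  obtain ⟨m, hm⟩ : ∃ m, N + 1 - L = m := ⟨_, rfl⟩
  rw [hm]
  -- the binomial theorem
  have hX1 : K.X1 = Psi n E K.GP - MvPolynomial.C (Polynomial.X : B2 E) *
      Corner.fer n K.D (B2 E) := by
    rw [Corner.X1]
    congr 1
    rw [Corner.GP, map_sum]
    refine Finset.sum_congr rfl fun k _ => ?_
    rw [Psi_monomial]
    rfl
  have hfer : MvPolynomial.map (CC E) (Corner.fer n K.D E) = Corner.fer n K.D (B2 E) := by
    rw [Corner.fer, Corner.fer, map_sum]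
    refine Finset.sum_congr rfl fun i _ => ?_
    rw [map_pow, MvPolynomial.map_X]
  have hpow : MvPolynomial.monomial a 1 * K.X1 ^ m = ∑ c ∈ Finset.range (m + 1),
      MvPolynomial.C (Polynomial.X ^ c * CC E ((-1) ^ c * (m.choose c : E)) : B2 E) *
        Psi n E (Polynomial.C (MvPolynomial.monomial a 1 * Corner.fer n K.D E ^ c) *
          K.GP ^ (m - c)) := by
    rw [hX1, bin_gen (R := Poly n (B2 E))]
    refine Finset.sum_congr rfl fun c _ => ?_
    have e1 : (MvPolynomial.monomial a (1 : B2 E)) =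
        MvPolynomial.map (CC E) (MvPolynomial.monomial a 1) := by
      rw [MvPolynomial.map_monomial, map_one (CC E)]
    have e2 := hom_gen (R := Poly n (B2 E)) (MvPolynomial.C (R := B2 E) (σ := Fin (n + 1)))
      (CC E) Polynomial.X c (m.choose c)
    rw [e1, e2]
    congr 1
    rw [map_mul (Psi n E), map_pow (Psi n E), Psi_C, map_mul (MvPolynomial.map (CC E)),
      map_pow (MvPolynomial.map (CC E)), hfer]
  have hcoef : ∀ c : ℕ, (((IoQ (MvPolynomial.C (Polynomial.X ^ c *
      CC E ((-1) ^ c * (m.choose c : E)) : B2 E) *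
        Psi n E (Polynomial.C (MvPolynomial.monomial a 1 * Corner.fer n K.D E ^ c) *
          K.GP ^ (m - c)))).coeff l).coeff t) = if l = c then
        ((-1) ^ c * (m.choose c : E)) * Io (MvPolynomial.monomial a 1 * Corner.fer n K.D E ^ c *
          (K.GP ^ (m - c)).coeff t) else 0 := by
    intro c
    rw [MvPolynomial.C_mul', map_smul, smul_eq_mul, coeff_term]
    · rw [IoQ_Psi, if_pos rfl, Polynomial.coeff_C_mul]
    · intro l' t' hl'
      rw [IoQ_Psi, if_neg hl']
  have hq : ∀ (q : ℚ) (y : B2 E), ((algebraMap ℚ (B2 E) q * y).coeff l).coeff t =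
      algebraMap ℚ E q * (y.coeff l).coeff t := by
    intro q y
    rw [algQ]
    change ((Polynomial.C (Polynomial.C (algebraMap ℚ E q)) * y).coeff l).coeff t = _
    rw [Polynomial.coeff_C_mul, Polynomial.coeff_C_mul]
  rw [hq, hpow, map_sum, Polynomial.finsetSum_coeff, Polynomial.finsetSum_coeff,
    Finset.sum_congr rfl fun c _ => hcoef c, Finset.sum_ite_eq, Corner.Ainf]
  by_cases hlm : l ≤ m
  · rw [if_pos (Finset.mem_range.2 (Nat.lt_succ_of_le hlm)), if_pos (by omega)]
    have e1 : ((N : ℤ) + 1 - (L : ℤ) - (l : ℤ)).toNat = m - l := by omega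
    rw [e1, Int.toNat_natCast, map_div₀, map_natCast, map_natCast]
    have e2 : (m.choose l : E) * (l.factorial : E) * ((m - l).factorial : E) =
        (m.factorial : E) := by
      exact_mod_cast Nat.choose_mul_factorial_mul_factorial hlm
    have h1 : (l.factorial : E) ≠ 0 := Nat.cast_ne_zero.2 (Nat.factorial_ne_zero _)
    have h2 : ((m - l).factorial : E) ≠ 0 := Nat.cast_ne_zero.2 (Nat.factorial_ne_zero _)
    have h3 : (m.choose l : E) ≠ 0 := Nat.cast_ne_zero.2 (Nat.choose_pos hlm).ne'
    rw [← e2]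
    field_simp
  · rw [if_neg (fun h => hlm (Nat.le_of_lt_succ (Finset.mem_range.1 h))), if_neg (by omega),
      mul_zero]

end Pool.CUBE
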